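import Pool.Agent.Helper771.CInv.P_main_thm

namespace Pool.Agent.Results.MP_674932_gt.NoSchoutenInvariants

open CInv

/-- For every even `n ≥ 6`: a real linear combination `c` of complete contractions of the
tensors `∇^l P` (`P` the Schouten tensor) which is a scalar conformal invariant of weight `-n`
in dimension `n` vanishes identically on all `n`-dimensional Riemannian metrics. -/
theorem result (n : ℕ) (hn : Even n) (h6 : 6 ≤ n) (c : Contraction →₀ ℝ)
    (hc : ∀ (U : Set (Fin n → ℝ)), IsOpen U →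
      ∀ g : (Fin n → ℝ) → Matrix (Fin n) (Fin n) ℝ, IsMetricOn U g →
      ∀ ω : (Fin n → ℝ) → ℝ, ContDiffOn ℝ (⊤ : ℕ∞) ω U → ∀ x ∈ U,
        value c (fun y => Real.exp (2 * ω y) • g y) x
          = Real.exp (-(n : ℝ) * ω x) * value c g x)
    (U : Set (Fin n → ℝ)) (hU : IsOpen U)
    (g : (Fin n → ℝ) → Matrix (Fin n) (Fin n) ℝ) (hg : IsMetricOn U g)
    (x : Fin n → ℝ) (hx : x ∈ U) :
    value c g x = 0 :=
  main_thm n hn h6 c hc U hU g hg x hx

end Pool.Agent.Results.MP_674932_gt.NoSchoutenInvariants
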